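import Pool.Agent.Work.MP_426d99_co.Main

/-!
# Smallest `r`-graphs with `k` or `k - 1` disjoint perfect matchings lie in `ℋ_r`

For `2 ≤ k < r` one of the two families `𝒯(r, k)`, `𝒯(r, k - 1)` is nonempty and contained in
`ℋ_r`. The definitions are in `Pool/Agent/Work/MP_426d99_co/Defs.lean`.
-/

namespace Pool.Agent.Results.MP_426d99_co.ConsecutiveValues

open RGraph

theorem result :
    (∀ r k : ℕ, 2 ≤ k → k < r → ∃ j, (j = k ∨ j = k - 1) ∧
      (∃ (V E : Type) (_ : Finite V) (_ : Finite E) (ends : E → Sym2 V), InT r j ends) ∧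
      (∀ (V E : Type) [Finite V] [Finite E] (ends : E → Sym2 V),
        InT r j ends → InH r ends)) ∧
    (∀ r k : ℕ, 1 ≤ k → k < r → ∀ (V E : Type) [Finite V] [Finite E] (ends : E → Sym2 V),
      IsRGraph r ends → (∀ t, HasPMs ends t → t < k) →
        ∃ ends' : E → Sym2 V, IsRGraph r ends' ∧ (PiEq ends' k ∨ PiEq ends' (k - 1))) := by
  refine ⟨fun r k hk hkr => main' hk hkr (exists_low hk hkr), ?_⟩
  intro r k hk hkr V E _ _ ends h hlt
  obtain ⟨ends', h', hc⟩ := interpolation h hk hkr (fun hh => lt_irrefl _ (hlt k hh))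
  refine ⟨ends', h', ?_⟩
  rcases hc with hc | hc
  · exact Or.inl (piEq_iff.2 hc)
  · refine Or.inr (piEq_iff.2 ?_)
    rw [show k - 1 + 1 = k by omega]
    exact hc

end Pool.Agent.Results.MP_426d99_co.ConsecutiveValues
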