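import Pool.Agent.Work.MP_426d99_co.KT.A_Main

/-!
# Smallest `r`-graphs with exactly two disjoint perfect matchings lie in `ℋ_r`

For every `r ≥ 5` the family `𝒯(r, 2)` is nonempty and contained in `ℋ_r`. The definitions are in
`Pool/Agent/Work/MP_426d99_co/Defs.lean`.
-/

namespace Pool.Agent.Results.MP_426d99_co.KTwo

open RGraph

theorem result : ∀ r : ℕ, 5 ≤ r →
    (∃ (V E : Type) (_ : Finite V) (_ : Finite E) (ends : E → Sym2 V), InT r 2 ends) ∧
    (∀ (V E : Type) [Finite V] [Finite E] (ends : E → Sym2 V), InT r 2 ends → InH r ends) :=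
  RGraph.KT.main_all

end Pool.Agent.Results.MP_426d99_co.KTwo
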