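import Pool.Agent.Work.MP_426d99_co.Main
import Pool.Agent.Work.MP_426d99_co.KT.A_Order

/-!
# A quadratic upper bound for the order of the graphs in `𝒯(r, k)`

For all `1 ≤ k ≤ r - 2` there is an `r`-graph with `π = k` on `2 + 10 * ∑_{j < r} ⌊j / k⌋`
vertices. The definitions are in `Pool/Agent/Work/MP_426d99_co/Defs.lean`.
-/

namespace Pool.Agent.Results.MP_426d99_co.QuadraticOrder

open RGraph

theorem sum_top {r k : ℕ} (h1 : 1 ≤ k) (h2 : k ≤ r) (h3 : r ≤ 2 * k) :
    ∑ j ∈ Finset.range r, j / k = r - k := by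
  obtain ⟨m, rfl⟩ := Nat.exists_eq_add_of_le h2
  have hm : m ≤ k := by omega
  clear h2 h3
  induction m with
  | zero =>
    simp only [add_zero, Nat.sub_self]
    apply Finset.sum_eq_zero
    intro j hj
    exact Nat.div_eq_of_lt (Finset.mem_range.1 hj)
  | succ m ih =>
    rw [← add_assoc, Finset.sum_range_succ, ih (by omega)]
    have : (k + m) / k = 1 := by
      rw [Nat.div_eq_iff (by omega)]
      omega
    omega

theorem result : ∀ r k : ℕ, 1 ≤ k → k + 2 ≤ r →
    (∃ (V E : Type) (_ : Finite V) (_ : Finite E) (ends : E → Sym2 V),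
      IsRGraph r ends ∧ PiEq ends k ∧
        Nat.card V = 2 + 10 * ∑ j ∈ Finset.range r, j / k) ∧
    (∃ (V E : Type) (_ : Finite V) (_ : Finite E) (ends : E → Sym2 V), InT r k ends) ∧
    (∀ (V E : Type) [Finite V] [Finite E] (ends : E → Sym2 V), InT r k ends →
      Nat.card V ≤ 2 + 10 * ∑ j ∈ Finset.range r, j / k ∧
      k * Nat.card V ≤ 2 * k + 5 * r ^ 2 ∧
      (k = 1 → Nat.card V ≤ 5 * (r * (r - 1)) + 2) ∧
      (r ≤ 2 * k → Nat.card V ≤ 2 + 10 * (r - k))) := by
  classical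
  intro r k hk hkr
  obtain ⟨V, E, fV, fE, ends, h1, h2, h3, -⟩ := RGraph.KT.order_all r k hk hkr
  refine ⟨⟨V, E, fV, fE, ends, h1, h2, h3⟩, ?_, ?_⟩
  · let P : ℕ → Prop := fun n => ∃ (V E : Type) (_ : Finite V) (_ : Finite E)
      (ends : E → Sym2 V), IsRGraph r ends ∧ PiEq ends k ∧ Nat.card V = n
    have hP : ∃ n, P n := ⟨_, V, E, fV, fE, ends, h1, h2, rfl⟩
    obtain ⟨V₁, E₁, fV₁, fE₁, ends₁, hr₁, hpi₁, hc₁⟩ := Nat.find_spec hP
    refine ⟨V₁, E₁, fV₁, fE₁, ends₁, hr₁, hpi₁, ?_⟩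
    intro V' E' _ _ ends' h4 h5
    rw [hc₁]
    exact Nat.find_min' hP ⟨V', E', inferInstance, inferInstance, ends', h4, h5, rfl⟩
  · intro V' E' _ _ ends' hT
    have hle := hT.2.2 V E ends h1 h2
    rw [h3] at hle
    refine ⟨hle, ?_, ?_, ?_⟩
    · have h6 := RGraph.KT.I_Len.2.2.2.1 k r hk
      have h7 := Nat.mul_le_mul_left k hle
      have h8 : 2 * k * ∑ j ∈ Finset.range r, j / k = k * (2 * ∑ j ∈ Finset.range r, j / k) := by
        ring
      rw [h8] at h6
      nlinarith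
    · rintro rfl
      have h6 := RGraph.KT.I_Len.2.1 r
      rw [h6] at hle
      have h9 : 2 ∣ r * (r - 1) := by
        have := Nat.even_mul_pred_self r
        exact this.two_dvd
      omega
    · intro h10
      rw [sum_top hk (by omega) h10] at hle
      exact hle

end Pool.Agent.Results.MP_426d99_co.QuadraticOrder
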